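import Pool.Agent.Helper45.KPA.M_TEV

/-!
# Project KP (MP_26be5b_ag), MODULE TFB (the trace map into the dual)
-/

set_option autoImplicit false

namespace Pool.Agent.Helper87.KPA

open Pool.Agent.Helper5.KPA Pool.Agent.Helper52.KP MvPolynomial MeasureTheory

/-- homogeneity of a polynomial in `τ, z` (`τ` of weight zero) -/
private def HP {m : ℕ} (w : Fin m → ℕ) (e : ℕ) (P : MvPolynomial (Fin (m + 1)) ℂ) : Prop :=
  ∀ (c : ℂ) (ζ : Fin (m + 1) → ℂ),
    ev P (scl (Fin.cons 0 w : Fin (m + 1) → ℕ) c ζ) = c ^ e * ev P ζ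

private lemma HP_mul {m : ℕ} {w : Fin m → ℕ} {e e' : ℕ} {P P' : MvPolynomial (Fin (m + 1)) ℂ}
    (h : HP w e P) (h' : HP w e' P') : HP w (e + e') (P * P') := by
  intro c ζ
  have h1 := h c ζ
  have h2 := h' c ζ
  unfold ev at h1 h2 ⊢
  rw [map_mul, map_mul, h1, h2, pow_add]
  ring

private lemma HP_toM {m : ℕ} {w : Fin m → ℕ} {e : ℕ} (y : QQ m)
    (h : ∀ (l : ℕ) (c : ℂ) (z : Fin m → ℂ),
      ev (y.coeff l) (scl w c z) = c ^ e * ev (y.coeff l) z) : HP w e (toM m y) := by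
  intro c ζ
  have h1 : ζ = (Fin.cons (ζ 0) (Fin.tail ζ) : Fin (m + 1) → ℂ) := (Fin.cons_self_tail ζ).symm
  have h2 : scl (Fin.cons 0 w : Fin (m + 1) → ℕ) c ζ =
      (Fin.cons (ζ 0) (scl w c (Fin.tail ζ)) : Fin (m + 1) → ℂ) := by
    funext i
    refine Fin.cases ?_ (fun j => ?_) i
    · simp [scl]
    · simp [scl, Fin.tail]
  have h3 : y.map (MvPolynomial.eval (scl w c (Fin.tail ζ))) =
      Polynomial.C (c ^ e) * y.map (MvPolynomial.eval (Fin.tail ζ)) := by
    ext l
    rw [Polynomial.coeff_C_mul, Polynomial.coeff_map, Polynomial.coeff_map]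
    exact h l c (Fin.tail ζ)
  rw [h2, Pool.Agent.Helper45.KPA.hTEV, h3, Polynomial.eval_mul, Polynomial.eval_C]
  congr 1
  conv_rhs => rw [h1]
  rw [Pool.Agent.Helper45.KPA.hTEV]

/-- square integrability on the sets where `a'` is bounded -/
private def SI {M : ℕ} (a' : Fin M → MvPolynomial (Fin M) ℂ) (G : MvPolynomial (Fin M) ℂ) :
    Prop :=
  ∀ c : ℝ, ∫⁻ ζ in {ζ : Fin M → ℂ | ‖evm a' ζ‖ ≤ c}, ENNReal.ofReal (‖ev G ζ‖ ^ 2) ≠ ⊤

private lemma SI_zero {M : ℕ} (a' : Fin M → MvPolynomial (Fin M) ℂ) : SI a' 0 := by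
  intro c
  simp [ev]

private lemma SI_add {M : ℕ} {a' : Fin M → MvPolynomial (Fin M) ℂ}
    {G G' : MvPolynomial (Fin M) ℂ} (h : SI a' G) (h' : SI a' G') : SI a' (G + G') := by
  intro c
  have hm : ∀ P : MvPolynomial (Fin M) ℂ,
      Measurable fun ζ : Fin M → ℂ => ENNReal.ofReal (‖ev P ζ‖ ^ 2) := by
    intro P
    have hc : Continuous fun ζ : Fin M → ℂ => ev P ζ := MvPolynomial.continuous_eval P
    exact (hc.norm.pow 2).measurable.ennreal_ofReal
  have h1 : ∫⁻ ζ in {ζ : Fin M → ℂ | ‖evm a' ζ‖ ≤ c}, ENNReal.ofReal (‖ev (G + G') ζ‖ ^ 2) ≤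
      ∫⁻ ζ in {ζ : Fin M → ℂ | ‖evm a' ζ‖ ≤ c}, (2 * ENNReal.ofReal (‖ev G ζ‖ ^ 2) +
        2 * ENNReal.ofReal (‖ev G' ζ‖ ^ 2)) := by
    apply lintegral_mono
    intro ζ
    have h2 : (2 : ENNReal) = ENNReal.ofReal 2 := by simp
    simp only
    rw [h2, ← ENNReal.ofReal_mul (by norm_num), ← ENNReal.ofReal_mul (by norm_num),
      ← ENNReal.ofReal_add (by positivity) (by positivity)]
    apply ENNReal.ofReal_le_ofReal
    have h3 : ev (G + G') ζ = ev G ζ + ev G' ζ := by unfold ev; rw [map_add]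
    rw [h3]
    have h4 := norm_add_le (ev G ζ) (ev G' ζ)
    have h5 : ‖ev G ζ + ev G' ζ‖ ^ 2 ≤ (‖ev G ζ‖ + ‖ev G' ζ‖) ^ 2 :=
      pow_le_pow_left₀ (norm_nonneg _) h4 2
    nlinarith [sq_nonneg (‖ev G ζ‖ - ‖ev G' ζ‖)]
  refine ne_top_of_le_ne_top ?_ h1
  rw [lintegral_add_left ((hm G).const_mul 2), lintegral_const_mul' _ _ (by simp),
    lintegral_const_mul' _ _ (by simp)]
  exact ENNReal.add_ne_top.2 ⟨ENNReal.mul_ne_top (by simp) (h c),
    ENNReal.mul_ne_top (by simp) (h' c)⟩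

private lemma SI_sum {M : ℕ} {a' : Fin M → MvPolynomial (Fin M) ℂ} {ι : Type} (s : Finset ι)
    (G : ι → MvPolynomial (Fin M) ℂ) (h : ∀ i ∈ s, SI a' (G i)) : SI a' (∑ i ∈ s, G i) := by
  classical
  induction s using Finset.induction_on with
  | empty => rw [Finset.sum_empty]; exact SI_zero a'
  | insert i s hi ih =>
    rw [Finset.sum_insert hi]
    exact SI_add (h i (Finset.mem_insert_self i s))
      (ih fun j hj => h j (Finset.mem_insert_of_mem hj))

private lemma expand {m : ℕ} (x' : QQ m) (J : MvPolynomial (Fin m) ℂ) :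
    toM m (x' * Polynomial.C J) = ∑ l ∈ Finset.range (x'.natDegree + 1),
      toM m (Polynomial.C (x'.coeff l * J) * Polynomial.X ^ l) := by
  rw [← map_sum]
  congr 1
  conv_lhs => rw [x'.as_sum_range_C_mul_X_pow]
  rw [Finset.sum_mul]
  apply Finset.sum_congr rfl
  intro l _
  rw [Polynomial.C_mul]
  ring

private lemma divX_add' {m : ℕ} (x y : QQ m) :
    Polynomial.divX (x + y) = Polynomial.divX x + Polynomial.divX y := by
  ext l : 1
  simp [Polynomial.coeff_divX]

private lemma divX_smul' {m : ℕ} (c : ℂ) (x : QQ m) :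
    Polynomial.divX (c • x) = c • Polynomial.divX x := by
  ext l : 1
  simp [Polynomial.coeff_divX]

theorem hTFB (hTRC : StTRC) (hTIN : StTIN) (hTHO : StTHO) (hTIG : StTIG) (hTJS : StTJS)
    (hTNB : StTNB) (hAJC : StAJC) (hABD : StABD) (hAGR : StAGR) : StTFB := by
  intro C hC r F hF a hNN hfd ℓ hSlo k E hk hE
  have hn := hC.hn
  have hr := hF.hr
  have hd : 0 < C.n * r := Nat.mul_pos hn hr
  obtain ⟨hGr, _, _, _⟩ := hAGR C hC r F hF
  -- the polynomial map
  obtain ⟨a', ha'⟩ : ∃ a' : Fin (C.m + 1) → MvPolynomial (Fin (C.m + 1)) ℂ,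
    a' = fun i => toM C.m (a i) := ⟨_, rfl⟩
  have hai : AlgebraicIndependent ℂ a' := by
    have h := hNN.ai.map' (f := (toM C.m).toAlgHom) (toM C.m).injective
    rw [ha']
    exact h
  obtain ⟨δ, T, hT⟩ := hTRC (C.m + 1) a' hai
  obtain ⟨q, hq⟩ : ∃ q, q = jac a' := ⟨_, rfl⟩
  have hq0 : q ≠ 0 := by rw [hq]; exact hAJC (C.m + 1) a' hai
  obtain ⟨S, hS, hS0, hSq⟩ := hTJS C hC r F hF a hNN
  have hqS : q = toM C.m (S * Polynomial.C C.J) := by
    rw [hq, ha']
    exact hSq
  -- aeval through `toM`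
  have hae : ∀ α : MvPolynomial (Fin (C.m + 1)) ℂ, toM C.m (aeval a α) = aeval a' α := by
    intro α
    have h := MvPolynomial.comp_aeval_apply a (toM C.m).toAlgHom α
    rw [ha']
    exact h
  -- embedding
  have hinj : Function.Injective (fun p : MvPolynomial (Fin (C.m + 1)) ℂ => (emb p : KK (C.m + 1))) :=
    IsFractionRing.injective (MvPolynomial (Fin (C.m + 1)) ℂ) (KK (C.m + 1))
  have hemb_add : ∀ p p' : MvPolynomial (Fin (C.m + 1)) ℂ,
      (emb (p + p') : KK (C.m + 1)) = emb p + emb p' := fun p p' => map_add _ p p'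
  have hemb_mul : ∀ p p' : MvPolynomial (Fin (C.m + 1)) ℂ,
      (emb (p * p') : KK (C.m + 1)) = emb p * emb p' := fun p p' => map_mul _ p p'
  have hemb0 : (emb (0 : MvPolynomial (Fin (C.m + 1)) ℂ) : KK (C.m + 1)) = 0 := map_zero _
  have hembq : (emb q : KK (C.m + 1)) ≠ 0 := by
    intro h
    apply hq0
    apply hinj
    simp only
    rw [h, hemb0]
  -- the functional
  obtain ⟨tau, htau⟩ : ∃ tau : MvPolynomial (Fin (C.m + 1)) ℂ → KK (C.m + 1),
    ∀ p, tau p = T (emb p / emb q) := ⟨_, fun p => rfl⟩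
  have tau_add : ∀ p p', tau (p + p') = tau p + tau p' := by
    intro p p'
    rw [htau, htau, htau, hemb_add, add_div, map_add]
  have tau_mul : ∀ β p, tau (aeval a' β * p) = emb β * tau p := by
    intro β p
    rw [htau, htau, hemb_mul, mul_div_assoc, hT.lin]
  have tau_smul : ∀ (c : ℂ) p, tau (c • p) = emb (MvPolynomial.C c) * tau p := by
    intro c p
    rw [MvPolynomial.smul_eq_C_mul]
    have h := tau_mul (MvPolynomial.C c) p
    rw [MvPolynomial.aeval_C] at h
    exact h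
  have tau_zero : tau 0 = 0 := by
    have h := tau_add 0 0
    rw [add_zero] at h
    simpa using h
  -- the forms
  obtain ⟨Gx, hGx⟩ : ∃ Gx : QQ C.m → MvPolynomial (Fin (C.m + 1)) ℂ,
    ∀ x, Gx x = toM C.m (Polynomial.divX x * Polynomial.C C.J) := ⟨_, fun x => rfl⟩
  have Gx_add : ∀ x y, Gx (x + y) = Gx x + Gx y := by
    intro x y
    rw [hGx, hGx, hGx, divX_add', add_mul, map_add]
  have Gx_smul : ∀ (c : ℂ) x, Gx (c • x) = c • Gx x := by
    intro c x
    rw [hGx, hGx, divX_smul', smul_mul_assoc, map_smul]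
  have hSI : ∀ x ∈ E, SI a' (Gx x) := by
    intro x hx
    obtain ⟨h1, _, h3⟩ := hE x hx
    rw [hGx, expand]
    apply SI_sum
    intro l _
    rw [Polynomial.coeff_divX]
    by_cases h0 : x.coeff (l + 1) = 0
    · rw [h0, zero_mul, Polynomial.C_0, zero_mul, map_zero]
      exact SI_zero a'
    · intro c
      have h := hTIG C hC r F hF a hNN ℓ hSlo k (l + 1) (x.coeff (l + 1)) hk (by omega)
        (h1 (l + 1)) (h3 (l + 1) (by omega) h0) c
      rw [Nat.add_sub_cancel] at h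
      rw [ha']
      exact h
  have hbd : ∀ (i : ℕ), ∀ b ∈ BB F i, ∀ c : ℝ, ∃ K : ℝ, ∀ ζ : Fin (C.m + 1) → ℂ,
      ‖evm a' ζ‖ ≤ c → ‖ev (toM C.m b) ζ‖ ≤ K := by
    intro i b hb c
    obtain ⟨K, hK, h⟩ := hABD (QQ C.m) (BB F) hGr (C.m + 1) a hNN i b hb
    refine ⟨K * (∑ _j : Fin (C.m + 1), c) ^ i, ?_⟩
    intro ζ hζ
    have h1 := h ((MvPolynomial.aeval ζ).comp (toM C.m).toAlgHom)
    have h2 : ∀ y : QQ C.m, ((MvPolynomial.aeval ζ).comp (toM C.m).toAlgHom) y =
        ev (toM C.m y) ζ := by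
      intro y
      rfl
    rw [h2] at h1
    refine le_trans h1 ?_
    apply mul_le_mul_of_nonneg_left _ hK
    apply pow_le_pow_left₀ (Finset.sum_nonneg fun j _ => norm_nonneg _)
    apply Finset.sum_le_sum
    intro j _
    rw [h2]
    have h3 : ev (toM C.m (a j)) ζ = evm a' ζ j := by rw [ha']; rfl
    rw [h3]
    exact le_trans (norm_le_pi_norm _ j) hζ
  have hex : ∀ (x : E) (i : ℕ) (b : BB F i), ∃ α : MvPolynomial (Fin (C.m + 1)) ℂ,
      tau (toM C.m (b : QQ C.m) * Gx x) = emb α := by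
    intro x i b
    obtain ⟨α, hα⟩ := hTIN (C.m + 1) a' δ T hai (by rw [← hq]; exact hq0) hT (Gx x)
      (toM C.m (b : QQ C.m)) (hSI x x.2) (hbd i b b.2)
    refine ⟨α, ?_⟩
    rw [htau, hq]
    exact hα
  choose A hA using hex
  -- linearity
  have A_add : ∀ (x : E) (i : ℕ) (b b' : BB F i), A x i (b + b') = A x i b + A x i b' := by
    intro x i b b'
    apply hinj
    simp only
    rw [hemb_add, ← hA, ← hA, ← hA, Submodule.coe_add, map_add, add_mul, tau_add]
  have A_smul : ∀ (x : E) (i : ℕ) (c : ℂ) (b : BB F i), A x i (c • b) = c • A x i b := by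
    intro x i c b
    apply hinj
    simp only
    rw [MvPolynomial.smul_eq_C_mul, hemb_mul, ← hA, ← hA, Submodule.coe_smul, map_smul,
      smul_mul_assoc, tau_smul]
  have A_addx : ∀ (x y : E) (i : ℕ) (b : BB F i), A (x + y) i b = A x i b + A y i b := by
    intro x y i b
    apply hinj
    simp only
    rw [hemb_add, ← hA, ← hA, ← hA, Submodule.coe_add, Gx_add, mul_add, tau_add]
  have A_smulx : ∀ (c : ℂ) (x : E) (i : ℕ) (b : BB F i), A (c • x) i b = c • A x i b := by
    intro c x i b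
    apply hinj
    simp only
    rw [MvPolynomial.smul_eq_C_mul, hemb_mul, ← hA, ← hA, Submodule.coe_smul, Gx_smul,
      mul_smul_comm, tau_smul]
  have A_act : ∀ (x : E) (i : ℕ) (l : Fin (C.m + 1)) (b : BB F i) (b' : BB F (i + 1)),
      (b' : QQ C.m) = a l * b → A x (i + 1) b' = X l * A x i b := by
    intro x i l b b' hbb
    apply hinj
    simp only
    rw [hemb_mul, ← hA, ← hA, hbb, map_mul, mul_assoc]
    have h := tau_mul (X l) (toM C.m (b : QQ C.m) * Gx x)
    rw [MvPolynomial.aeval_X] at h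
    rw [← h, ha']
  -- degrees
  have hanti : ∀ i l, F i l ≤ F i 0 := by
    intro i l
    induction l with
    | zero => exact le_rfl
    | succ l ih => exact (hF.anti i l).trans ih
  have hBBhom : ∀ (i : ℕ), ∀ b ∈ BB F i, HP C.w (C.n * r * i) (toM C.m b) := by
    intro i b hb
    apply HP_toM
    intro l c z
    have h1 : b.coeff l ∈ C.R (C.n * r * i) := by
      rw [← hF.zero i]
      exact hanti i l (hb l)
    exact hC.hom _ _ h1 c z
  have hJhom : HP C.w C.jd (toM C.m (Polynomial.C C.J)) := by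
    apply HP_toM
    intro l c z
    rw [Polynomial.coeff_C]
    split_ifs with h
    · exact hC.Jhom c z
    · simp [ev]
  have hQRhom : ∀ (e : ℕ), ∀ y ∈ QR C e, HP C.w e (toM C.m y) := by
    intro e y hy
    apply HP_toM
    intro l c z
    exact hC.hom _ _ (hy l) c z
  have hdivX : ∀ x ∈ E, Polynomial.divX x ∈ QR C (C.n * r * k - C.n) := by
    intro x hx l
    rw [Polynomial.coeff_divX]
    exact (hE x hx).1 (l + 1)
  have hGxhom : ∀ x ∈ E, HP C.w (C.n * r * k - C.n + C.jd) (Gx x) := by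
    intro x hx
    rw [hGx, map_mul]
    exact HP_mul (hQRhom _ _ (hdivX x hx)) hJhom
  have hqhom : HP C.w (C.n * r * (C.m + 1) - C.n + C.jd) q := by
    rw [hqS, map_mul]
    exact HP_mul (hQRhom _ _ hS) hJhom
  have ha'hom : ∀ i (c : ℂ) (ζ : Fin (C.m + 1) → ℂ),
      ev (a' i) (scl (Fin.cons 0 C.w : Fin (C.m + 1) → ℕ) c ζ) = c ^ (C.n * r) * ev (a' i) ζ := by
    intro i c ζ
    have h := hBBhom 1 (a i) (hNN.mem i) c ζ
    rw [mul_one] at h
    rw [ha']
    exact h
  have hle1 : C.n ≤ C.n * r * k := by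
    have h1 : C.n * 1 ≤ C.n * (r * k) := Nat.mul_le_mul_left _ (Nat.mul_pos hr hk)
    rw [mul_one, ← mul_assoc] at h1
    exact h1
  have hle2 : C.n ≤ C.n * r * (C.m + 1) := by
    have h1 : C.n * 1 ≤ C.n * (r * (C.m + 1)) :=
      Nat.mul_le_mul_left _ (Nat.mul_pos hr (Nat.succ_pos _))
    rw [mul_one, ← mul_assoc] at h1
    exact h1
  have A_deg : ∀ (x : E) (i : ℕ) (b : BB F i),
      A x i b ∈ hp (C.m + 1) ((i : ℤ) + k - ((C.m + 1 : ℕ) : ℤ)) := by
    intro x i b
    have hp1 : HP C.w (C.n * r * i + (C.n * r * k - C.n + C.jd))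
        (toM C.m (b : QQ C.m) * Gx x) := HP_mul (hBBhom i b b.2) (hGxhom x x.2)
    refine hTHO (C.m + 1) a' δ T hT (Fin.cons 0 C.w : Fin (C.m + 1) → ℕ) (C.n * r) hd ha'hom
      (toM C.m (b : QQ C.m) * Gx x) q (C.n * r * i + (C.n * r * k - C.n + C.jd))
      (C.n * r * (C.m + 1) - C.n + C.jd) _ hq0 ?_ hp1 hqhom _ ?_
    · push_cast [Nat.cast_sub hle1, Nat.cast_sub hle2]
      ring
    · rw [← htau]
      exact hA x i b
  -- the map
  obtain ⟨φ0, hφ0⟩ : ∃ φ0 : (x : E) → (i : ℕ) → (BB F i →ₗ[ℂ] MvPolynomial (Fin (C.m + 1)) ℂ),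
      ∀ x i b, φ0 x i b = A x i b :=
    ⟨fun x i => { toFun := A x i, map_add' := A_add x i, map_smul' := fun c b => A_smul x i c b },
      fun x i b => rfl⟩
  have hmem : ∀ x : E, (fun i => φ0 x i) ∈ Dl (ac a) (BB F) k := by
    intro x
    refine ⟨fun i b => ?_, fun i l b b' hbb => ?_⟩
    · simp only
      rw [hφ0]
      exact A_deg x i b
    · simp only
      rw [hφ0, hφ0]
      apply A_act
      rw [hbb]
      unfold ac
      simp [Algebra.lmul]
  have hΦ : ∃ Φ : E →ₗ[ℂ] Dl (ac a) (BB F) k, ∀ x, (Φ x : (i : ℕ) → _) = fun i => φ0 x i := by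
    refine ⟨{ toFun := fun x => ⟨fun i => φ0 x i, hmem x⟩, map_add' := ?_, map_smul' := ?_ },
      fun x => rfl⟩
    · intro x y
      apply Subtype.ext
      funext i
      apply LinearMap.ext
      intro b
      show φ0 (x + y) i b = φ0 x i b + φ0 y i b
      rw [hφ0, hφ0, hφ0]
      exact A_addx x y i b
    · intro c x
      apply Subtype.ext
      funext i
      apply LinearMap.ext
      intro b
      show φ0 (c • x) i b = c • φ0 x i b
      rw [hφ0, hφ0]
      exact A_smulx c x i b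
  obtain ⟨Φ, hΦ⟩ := hΦ
  have hinjΦ : Function.Injective Φ := by
    rw [injective_iff_map_eq_zero]
    intro x hx
    by_contra hx0
    have hzero : ∀ (i : ℕ) (b : BB F i), A x i b = 0 := by
      intro i b
      rw [← hφ0]
      have h1 : (Φ x).1 i b = 0 := by rw [hx]; rfl
      rw [hΦ] at h1
      exact h1
    have hxx : (x : QQ C.m) = Polynomial.divX (x : QQ C.m) * Polynomial.X := by
      have h1 := Polynomial.divX_mul_X_add (x : QQ C.m)
      rw [(hE x x.2).2.1, Polynomial.C_0, add_zero] at h1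
      exact h1.symm
    have hdx0 : Polynomial.divX (x : QQ C.m) ≠ 0 := by
      intro h
      apply hx0
      apply Subtype.ext
      rw [hxx, h, zero_mul]
      rfl
    obtain ⟨b, hb, α, hα, hbα⟩ := hTNB C hC r F hF a hNN k (Polynomial.divX (x : QQ C.m)) S hk
      (hdivX x x.2) hdx0 hS
    have hall : ∀ b ∈ (⨆ i, BB F i), tau (toM C.m b * Gx x) = 0 := by
      intro b hb
      induction hb using Submodule.iSup_induction' with
      | mem i y hy =>
        have h1 := hA x i ⟨y, hy⟩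
        rw [hzero, hemb0] at h1
        exact h1
      | zero => rw [map_zero, zero_mul, tau_zero]
      | add y z _ _ h1 h2 => rw [map_add, add_mul, tau_add, h1, h2, add_zero]
    have h1 := hall b hb
    have h2 : toM C.m b * Gx x = aeval a' α * q := by
      rw [hGx, hqS, ← hae, ← map_mul, ← map_mul]
      congr 1
      rw [← mul_assoc, hbα, mul_assoc]
    rw [h2, tau_mul, htau, div_self hembq, hT.one] at h1
    rcases mul_eq_zero.1 h1 with h3 | h3
    · apply hα
      apply hinj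
      simp only
      rw [h3, hemb0]
    · have h4 : (δ : KK (C.m + 1)) ≠ 0 := by
        have h5 : δ ≠ 0 := hT.pos.ne'
        have h6 : CharZero (KK (C.m + 1)) := by
          have : CharZero (MvPolynomial (Fin (C.m + 1)) ℂ) := inferInstance
          exact charZero_of_injective_algebraMap
            (IsFractionRing.injective (MvPolynomial (Fin (C.m + 1)) ℂ) (KK (C.m + 1)))
        exact Nat.cast_ne_zero.2 h5
      exact h4 h3
  have hfk : Module.Finite ℂ (Dl (ac a) (BB F) k) := hfd k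
  have hno : IsNoetherian ℂ (Dl (ac a) (BB F) k) := by
    have h := @isNoetherian_of_isNoetherianRing_of_finite ℂ (Dl (ac a) (BB F) k) _ _ _ _ (hfd k)
    exact h
  have hfin : FiniteDimensional ℂ E := Module.Finite.of_injective Φ hinjΦ
  exact ⟨hfin, LinearMap.finrank_le_finrank_of_injective hinjΦ⟩

end Pool.Agent.Helper87.KPA
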